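import Mathlib

set_option autoImplicit false

namespace Pool.Agent.Results.MP_edf47b_co.ExactValue

open Filter Topology

/-- The Euclidean plane. -/
abbrev E2 := EuclideanSpace ℝ (Fin 2)

/-- The open disk with diameter `pq`. -/
noncomputable def disk (p q : E2) : Set E2 := Metric.ball (midpoint ℝ p q) (dist p q / 2)

/-- `W` is a blocking set of witnesses for the Gabriel graph of `P`. -/
def IsBlocking (P W : Finset E2) : Prop :=
  ∀ p ∈ P, ∀ q ∈ P, p ≠ q → ∃ w ∈ W, w ∈ disk p q

/-- `k` is the smallest size of a blocking set of witnesses for the Gabriel graph of `P`. -/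
def IsMinWitnesses (P : Finset E2) (k : ℕ) : Prop :=
  IsLeast {k : ℕ | ∃ W : Finset E2, W.card = k ∧ IsBlocking P W} k

/-- `m = w(n)`: the maximum over all `n`-point sets `P` of the smallest size of a blocking set. -/
def IsW (n m : ℕ) : Prop :=
  IsGreatest {k : ℕ | ∃ P : Finset E2, P.card = n ∧ IsMinWitnesses P k} m

theorem mem_disk_iff (p q x : E2) : x ∈ disk p q ↔ inner ℝ (x - p) (x - q) < 0 := by
  have h1 : x - midpoint ℝ p q = (1 / 2 : ℝ) • ((x - p) + (x - q)) := by
    rw [midpoint_eq_smul_add]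
    ext i
    simp only [PiLp.sub_apply, PiLp.smul_apply, PiLp.add_apply, smul_eq_mul, invOf_eq_inv]
    ring
  have h2 : p - q = (x - q) - (x - p) := by abel
  have e1 : ‖(x - p) + (x - q)‖ ^ 2 =
      ‖x - p‖ ^ 2 + 2 * inner ℝ (x - p) (x - q) + ‖x - q‖ ^ 2 := norm_add_sq_real _ _
  have e2 : ‖(x - q) - (x - p)‖ ^ 2 =
      ‖x - q‖ ^ 2 - 2 * inner ℝ (x - q) (x - p) + ‖x - p‖ ^ 2 := norm_sub_sq_real _ _
  rw [real_inner_comm] at e2
  unfold disk
  rw [Metric.mem_ball, dist_eq_norm, dist_eq_norm, h1, h2, norm_smul]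
  have h3 : ‖(1 / 2 : ℝ)‖ = 1 / 2 := by norm_num
  rw [h3]
  have n1 := norm_nonneg ((x - p) + (x - q))
  have n2 := norm_nonneg ((x - q) - (x - p))
  constructor
  · intro h
    have h4 : ‖(x - p) + (x - q)‖ < ‖(x - q) - (x - p)‖ := by linarith
    have h5 := pow_lt_pow_left₀ h4 n1 (two_ne_zero)
    rw [e1, e2] at h5
    linarith
  · intro h
    have h5 : ‖(x - p) + (x - q)‖ ^ 2 < ‖(x - q) - (x - p)‖ ^ 2 := by
      rw [e1, e2]; linarith
    have h4 := lt_of_pow_lt_pow_left₀ 2 n2 h5
    linarith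

/-- a direction not orthogonal to any difference of two points of `P` -/
theorem exists_direction (P : Finset E2) : ∃ d : E2, ∀ p ∈ P, ∀ q ∈ P, p ≠ q →
    inner ℝ d (q - p) ≠ 0 := by
  classical
  obtain ⟨t, ht⟩ := Infinite.exists_notMem_finset
    ((P ×ˢ P).image (fun x : E2 × E2 => -((x.2 - x.1) 0) / (x.2 - x.1) 1))
  refine ⟨!₂[1, t], fun p hp q hq hpq h => ?_⟩
  rw [PiLp.inner_apply, Fin.sum_univ_two] at h
  simp at h
  by_cases h1 : q 1 - p 1 = 0
  · rw [h1] at h
    simp at h
    apply hpq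
    ext i
    fin_cases i
    · simp; linarith
    · simp; linarith
  · apply ht
    rw [Finset.mem_image]
    refine ⟨(p, q), Finset.mem_product.2 ⟨hp, hq⟩, ?_⟩
    simp only [PiLp.sub_apply]
    rw [div_eq_iff h1]
    linarith

/-- `n - 1` witnesses suffice. -/
theorem upper (P : Finset E2) : ∃ W : Finset E2, W.card ≤ P.card - 1 ∧ IsBlocking P W := by
  classical
  rcases P.eq_empty_or_nonempty with rfl | hne
  · exact ⟨∅, by simp, fun p hp => by simp at hp⟩
  obtain ⟨d, hd⟩ := exists_direction P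
  obtain ⟨m, hm, hmax⟩ := P.exists_max_image (fun x => inner ℝ d x) hne
  have hev : ∀ᶠ ε : ℝ in 𝓝[>] 0, ∀ x ∈ P ×ˢ P, 0 < inner ℝ d (x.2 - x.1) →
      ε * inner ℝ d d < inner ℝ d (x.2 - x.1) := by
    rw [Filter.eventually_all_finset]
    intro x _
    by_cases h : 0 < inner ℝ d (x.2 - x.1)
    · have hc : Tendsto (fun ε : ℝ => ε * inner ℝ d d) (𝓝[>] 0) (𝓝 (0 * inner ℝ d d)) :=
        (tendsto_id.mul_const _).mono_left nhdsWithin_le_nhds
      rw [zero_mul] at hc
      filter_upwards [hc.eventually (gt_mem_nhds h)] with ε hε _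
      exact hε
    · exact Eventually.of_forall fun ε h' => absurd h' h
  obtain ⟨ε, hε, hε0⟩ := (hev.and self_mem_nhdsWithin).exists
  have hε0' : 0 < ε := hε0
  refine ⟨(P.erase m).image (fun p => p + ε • d), ?_, ?_⟩
  · refine Finset.card_image_le.trans ?_
    rw [Finset.card_erase_of_mem hm]
  · have key : ∀ p ∈ P, ∀ q ∈ P, 0 < inner ℝ d (q - p) →
        ∃ w ∈ (P.erase m).image (fun p => p + ε • d), w ∈ disk p q := by
      intro p hp q hq h
      refine ⟨p + ε • d, Finset.mem_image_of_mem _ (Finset.mem_erase.2 ⟨?_, hp⟩), ?_⟩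
      · rintro rfl
        have := hmax q hq
        rw [inner_sub_right] at h
        linarith
      · rw [mem_disk_iff]
        have e1 : p + ε • d - p = ε • d := by abel
        have e2 : p + ε • d - q = ε • d - (q - p) := by abel
        rw [e1, e2, inner_sub_right, inner_smul_left, inner_smul_left, inner_smul_right]
        have := hε (p, q) (Finset.mem_product.2 ⟨hp, hq⟩) h
        simp only [conj_trivial] at this ⊢
        nlinarith
    intro p hp q hq hpq
    rcases lt_or_gt_of_ne (hd p hp q hq hpq) with h | h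
    · obtain ⟨w, hw, hw'⟩ := key q hq p hp (by
        rw [inner_sub_right] at h ⊢; linarith)
      refine ⟨w, hw, ?_⟩
      rw [mem_disk_iff] at hw' ⊢
      rwa [real_inner_comm]
    · exact key p hp q hq h

/-- the points `(0,0), (1,0), …, (n-1,0)` -/
noncomputable def row (n : ℕ) : Finset E2 :=
  (Finset.range n).map ⟨fun i : ℕ => !₂[(i : ℝ), 0], fun i j h => by
    have := congrArg (fun x : E2 => x 0) h
    simpa using this⟩

/-- Points in a row need `n - 1` witnesses. -/
theorem lower (n : ℕ) (W : Finset E2) (hW : IsBlocking (row n) W) : n - 1 ≤ W.card := by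
  classical
  have hex : ∀ i : ℕ, ∃ w : E2, i + 1 < n → (w ∈ W ∧ (i : ℝ) < w 0 ∧ w 0 < i + 1) := by
    intro i
    by_cases hi : i + 1 < n
    · obtain ⟨w, hw, hw'⟩ := hW !₂[(i : ℝ), 0] (by
          rw [row, Finset.mem_map]; exact ⟨i, Finset.mem_range.2 (by omega), rfl⟩)
        !₂[((i + 1 : ℕ) : ℝ), 0] (by
          rw [row, Finset.mem_map]; exact ⟨i + 1, Finset.mem_range.2 hi, rfl⟩) (by
          intro h
          have := congrArg (fun x : E2 => x 0) h
          simp at this)
      refine ⟨w, fun _ => ⟨hw, ?_⟩⟩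
      rw [mem_disk_iff, PiLp.inner_apply, Fin.sum_univ_two] at hw'
      simp at hw'
      constructor
      · by_contra hcon
        push Not at hcon
        nlinarith [mul_self_nonneg (w 1)]
      · by_contra hcon
        push Not at hcon
        nlinarith [mul_self_nonneg (w 1)]
    · exact ⟨0, fun h => absurd h hi⟩
  choose w hw using hex
  have hinj : Set.InjOn w (Finset.range (n - 1)) := by
    intro i hi j hj hij
    have hi' : i + 1 < n := by have := Finset.mem_range.1 hi; omega
    have hj' : j + 1 < n := by have := Finset.mem_range.1 hj; omega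
    obtain ⟨-, h1, h2⟩ := hw i hi'
    obtain ⟨-, h3, h4⟩ := hw j hj'
    rw [hij] at h1 h2
    have h5 : (i : ℝ) < j + 1 := by linarith
    have h6 : (j : ℝ) < i + 1 := by linarith
    have h7 : i < j + 1 := by exact_mod_cast h5
    have h8 : j < i + 1 := by exact_mod_cast h6
    omega
  have hsub : (Finset.range (n - 1)).image w ⊆ W := by
    intro x hx
    obtain ⟨i, hi, rfl⟩ := Finset.mem_image.1 hx
    have hi' : i + 1 < n := by have := Finset.mem_range.1 hi; omega
    exact (hw i hi').1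
  have := Finset.card_le_card hsub
  rwa [Finset.card_image_of_injOn hinj, Finset.card_range] at this

theorem exists_min (P : Finset E2) : ∃ k, IsMinWitnesses P k ∧ k ≤ P.card - 1 := by
  obtain ⟨W, hW, hb⟩ := upper P
  have hne : {k : ℕ | ∃ W : Finset E2, W.card = k ∧ IsBlocking P W}.Nonempty := ⟨_, W, rfl, hb⟩
  refine ⟨sInf {k : ℕ | ∃ W : Finset E2, W.card = k ∧ IsBlocking P W},
    ⟨Nat.sInf_mem hne, fun k hk => Nat.sInf_le hk⟩, ?_⟩
  have hmem : W.card ∈ {k : ℕ | ∃ W : Finset E2, W.card = k ∧ IsBlocking P W} := ⟨W, rfl, hb⟩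
  exact (Nat.sInf_le hmem).trans hW

/-- **`w(n) = n - 1` for every `n`.** The value is attained by `n` equally spaced points on a
line. -/
theorem result : (∀ n : ℕ, IsW n (n - 1)) ∧
    (∀ n : ℕ, (row n).card = n ∧ IsMinWitnesses (row n) (n - 1)) := by
  have hrow : ∀ n : ℕ, (row n).card = n ∧ IsMinWitnesses (row n) (n - 1) := by
    intro n
    have hc : (row n).card = n := by simp [row]
    refine ⟨hc, ?_⟩
    obtain ⟨k, hk, hle⟩ := exists_min (row n)
    rw [hc] at hle
    obtain ⟨W, hW, hb⟩ := hk.1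
    have h1 := lower n W hb
    have : k = n - 1 := by omega
    rw [← this]
    exact hk
  refine ⟨fun n => ⟨⟨row n, hrow n⟩, ?_⟩, hrow⟩
  rintro k ⟨P, hP, hk⟩
  obtain ⟨k', hk', hle⟩ := exists_min P
  rw [hP] at hle
  have : k = k' := hk.unique hk'
  omega

end Pool.Agent.Results.MP_edf47b_co.ExactValue
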